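import Pool.Agent.helper52.IR.Spec

/-! # Row ir:LCK (MP_07c750_an, project IR): localisation -/

set_option autoImplicit false

open scoped MatrixGroups ContDiff Topology UpperHalfPlane ComplexConjugate
open UpperHalfPlane MeasureTheory Filter Set

namespace Pool.Agent.IR

open Pool.Agent.RS

noncomputable section

theorem LCK_am {x y X Y : ℝ} (hx : |x| ≤ X) (hy : |y| ≤ Y) : |x * y| ≤ X * Y := by
  rw [abs_mul]
  exact mul_le_mul hx hy (abs_nonneg _) ((abs_nonneg _).trans hx)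

theorem LCK_exp : Real.exp (1 / 4) ≤ 257 / 200 := by
  have h1 : Real.exp 1 ≤ 2.7182818286 := Real.exp_one_lt_d9.le
  by_contra h
  rw [not_le] at h
  have h2 : Real.exp (1 / 4) ^ 4 = Real.exp 1 := by
    rw [← Real.exp_nat_mul]; norm_num
  have h3 : (257 / 200 : ℝ) ^ 4 < Real.exp (1 / 4) ^ 4 := pow_lt_pow_left₀ h (by norm_num) (by norm_num)
  rw [h2] at h3
  norm_num at h3 h1
  linarith

theorem LCK_im {η : ℝ} (h0 : 0 < η) (h : |Real.log η| ≤ 1 / 4) : 200 / 257 ≤ η ∧ η ≤ 257 / 200 := by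
  have h1 := abs_le.1 h
  have h2 : η ≤ Real.exp (1 / 4) := (Real.log_le_iff_le_exp h0).1 h1.2
  have h3 : Real.exp (-(1 / 4)) ≤ η := (Real.le_log_iff_exp_le h0).1 (by linarith [h1.1])
  refine ⟨?_, h2.trans LCK_exp⟩
  refine le_trans ?_ h3
  rw [Real.exp_neg, show (200 / 257 : ℝ) = (257 / 200)⁻¹ by norm_num]
  exact inv_anti₀ (Real.exp_pos _) LCK_exp

theorem LCK_bd (b v ξ p q c d u η : ℝ) (hb : 0 < b) (hb1 : b ≤ 1 / 100) (hv : 0 < v) (hv1 : v ≤ 1)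
    (hdet : p * d - q * c = 1) (hc : |c| ≤ b * v / 100) (hu : |u| ≤ b * v / 100) (hη : 0 < η)
    (hη1 : |Real.log η| ≤ 1 / 4) (hN : 0 < (c * u + d) ^ 2 + (c * η) ^ 2)
    (him : |Real.log (η / ((c * u + d) ^ 2 + (c * η) ^ 2))| ≤ 1 / 4)
    (hre : |(p * c * (u ^ 2 + η ^ 2) + (p * d + q * c) * u + q * d) / ((c * u + d) ^ 2 + (c * η) ^ 2) - ξ| ≤ b * v / 100) :
    3 / 4 ≤ |d| ∧ |d| ≤ 13 / 10 ∧ |ξ - q / d| ≤ 8 * (b * v) / 100 := by
  set N : ℝ := (c * u + d) ^ 2 + (c * η) ^ 2 with hNdef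
  obtain ⟨he1, he2⟩ := LCK_im hη hη1
  obtain ⟨hi1, hi2⟩ := LCK_im (div_pos hη hN) him
  have hbv : b * v ≤ 1 / 100 := by nlinarith
  have hbv0 : 0 < b * v := mul_pos hb hv
  have hc1 : |c| ≤ 1 / 10000 := by linarith
  have hu1 : |u| ≤ 1 / 10000 := by linarith
  -- N
  have hN1 : 3 / 5 ≤ N := by
    rw [div_le_iff₀ hN] at hi2
    nlinarith
  have hN2 : N ≤ 166 / 100 := by
    rw [le_div_iff₀ hN] at hi1
    nlinarith
  have hη2 : |η| ≤ 257 / 200 := by rw [abs_of_pos hη]; exact he2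
  have hce : |c * η| ≤ 1 / 10000 * (257 / 200) := LCK_am hc1 hη2
  have hce2 : (c * η) ^ 2 ≤ 1 / 1000000 := by
    rw [← sq_abs]
    have := pow_le_pow_left₀ (abs_nonneg _) hce 2
    refine this.trans (by norm_num)
  have hcu : |c * u| ≤ 1 / 10000 * (1 / 10000) := LCK_am hc1 hu1
  have hs1 : (c * u + d) ^ 2 ≤ 166 / 100 := by nlinarith [sq_nonneg (c * η)]
  have hs2 : 599 / 1000 ≤ (c * u + d) ^ 2 := by nlinarith
  have ht1 : |c * u + d| ≤ 129 / 100 := by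
    apply abs_le_of_sq_le_sq _ (by norm_num)
    refine hs1.trans (by norm_num)
  have ht2 : 77 / 100 ≤ |c * u + d| := by
    by_contra h
    rw [not_le] at h
    have h1 := pow_lt_pow_left₀ h (abs_nonneg _) (n := 2) (by norm_num)
    rw [sq_abs] at h1
    norm_num at h1
    linarith
  have hd1 : |d| ≤ 13 / 10 := by
    have h1 : d = (c * u + d) - c * u := by ring
    rw [h1]
    refine (abs_sub _ _).trans ?_
    linarith
  have hd2 : 3 / 4 ≤ |d| := by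
    have h1 := abs_add_le (c * u) d
    linarith
  have hd0 : d ≠ 0 := by
    intro h
    rw [h, abs_zero] at hd2
    linarith
  refine ⟨hd2, hd1, ?_⟩
  have hdpos : 0 < |d| := by linarith
  -- translation
  have hkey : (p * c * (u ^ 2 + η ^ 2) + (p * d + q * c) * u + q * d) / N - q / d = (c / d * (u ^ 2 + η ^ 2) + u) / N := by
    rw [div_sub_div _ _ hN.ne' hd0, div_eq_div_iff (mul_ne_zero hN.ne' hd0) hN.ne']
    have hc' : c / d * (u ^ 2 + η ^ 2) + u = (c * (u ^ 2 + η ^ 2) + u * d) / d := by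
      field_simp
    rw [hc']
    have h1 : (p * c * (u ^ 2 + η ^ 2) + (p * d + q * c) * u + q * d) * d - N * q = c * (u ^ 2 + η ^ 2) + u * d := by
      rw [hNdef]
      linear_combination (c * (u ^ 2 + η ^ 2) + u * d) * hdet
    rw [h1]
    field_simp
  have hcd : |c / d| ≤ b * v / 100 * (4 / 3) := by
    rw [abs_div, div_le_iff₀ hdpos]
    have : b * v / 100 ≤ b * v / 100 * (4 / 3) * |d| := by nlinarith
    linarith
  have hw : |u ^ 2 + η ^ 2| ≤ 166 / 100 := by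
    have h1 : u ^ 2 ≤ 1 / 100000 := by
      rw [← sq_abs]
      have := pow_le_pow_left₀ (abs_nonneg _) hu1 2
      refine this.trans (by norm_num)
    have h2 : η ^ 2 ≤ (257 / 200) ^ 2 := pow_le_pow_left₀ hη.le he2 2
    rw [abs_of_nonneg (by positivity)]
    norm_num at h2
    linarith
  have h3 : |(c / d * (u ^ 2 + η ^ 2) + u) / N| ≤ 7 * (b * v) / 100 := by
    rw [abs_div, abs_of_pos hN, div_le_iff₀ hN]
    refine (abs_add_le _ _).trans ?_
    have h4 := LCK_am hcd hw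
    nlinarith
  have h5 : ξ - q / d = ((p * c * (u ^ 2 + η ^ 2) + (p * d + q * c) * u + q * d) / N - q / d) -
      ((p * c * (u ^ 2 + η ^ 2) + (p * d + q * c) * u + q * d) / N - ξ) := by ring
  rw [h5]
  refine (abs_sub _ _).trans ?_
  rw [hkey]
  linarith

theorem LCK_mul (g h : SL(2, ℝ)) : (g * h).1 0 0 = g.1 0 0 * h.1 0 0 + g.1 0 1 * h.1 1 0 ∧
    (g * h).1 0 1 = g.1 0 0 * h.1 0 1 + g.1 0 1 * h.1 1 1 ∧
    (g * h).1 1 0 = g.1 1 0 * h.1 0 0 + g.1 1 1 * h.1 1 0 ∧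
    (g * h).1 1 1 = g.1 1 0 * h.1 0 1 + g.1 1 1 * h.1 1 1 := by
  have h1 : (g * h).1 = g.1 * h.1 := rfl
  rw [h1]
  simp [Matrix.mul_apply, Fin.sum_univ_two]

theorem LCK_det (g : SL(2, ℝ)) : g.1 0 0 * g.1 1 1 - g.1 0 1 * g.1 1 0 = 1 := by
  have := g.2
  rwa [Matrix.det_fin_two] at this

theorem LCK_im_smul (k : SL(2, ℝ)) (w : ℍ) : (k • w).im =
    w.im / ((k.1 1 0 * w.re + k.1 1 1) ^ 2 + (k.1 1 0 * w.im) ^ 2) := by
  have h1 : (k • w).im = ((k • w : ℍ) : ℂ).im := rfl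
  have h2 : ((k • w : ℍ) : ℂ) = (((k.1 0 0 : ℝ) : ℂ) * w + ((k.1 0 1 : ℝ) : ℂ)) / (((k.1 1 0 : ℝ) : ℂ) * w + ((k.1 1 1 : ℝ) : ℂ)) :=
    coe_specialLinearGroup_apply k w
  rw [h1, h2, Complex.div_im, ← sub_div]
  have h3 : Complex.normSq (((k.1 1 0 : ℝ) : ℂ) * w + ((k.1 1 1 : ℝ) : ℂ)) =
      (k.1 1 0 * w.re + k.1 1 1) ^ 2 + (k.1 1 0 * w.im) ^ 2 := by
    rw [Complex.normSq_apply]
    simp
    ring
  rw [h3]
  congr 1
  have h4 := LCK_det k
  simp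
  linear_combination w.im * h4

theorem LCK_re_smul (k : SL(2, ℝ)) (w : ℍ) : (k • w).re =
    (k.1 0 0 * k.1 1 0 * (w.re ^ 2 + w.im ^ 2) + (k.1 0 0 * k.1 1 1 + k.1 0 1 * k.1 1 0) * w.re + k.1 0 1 * k.1 1 1) /
      ((k.1 1 0 * w.re + k.1 1 1) ^ 2 + (k.1 1 0 * w.im) ^ 2) := by
  have h1 : (k • w).re = ((k • w : ℍ) : ℂ).re := rfl
  have h2 : ((k • w : ℍ) : ℂ) = (((k.1 0 0 : ℝ) : ℂ) * w + ((k.1 0 1 : ℝ) : ℂ)) / (((k.1 1 0 : ℝ) : ℂ) * w + ((k.1 1 1 : ℝ) : ℂ)) :=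
    coe_specialLinearGroup_apply k w
  rw [h1, h2, Complex.div_re, ← add_div]
  have h3 : Complex.normSq (((k.1 1 0 : ℝ) : ℂ) * w + ((k.1 1 1 : ℝ) : ℂ)) =
      (k.1 1 0 * w.re + k.1 1 1) ^ 2 + (k.1 1 0 * w.im) ^ 2 := by
    rw [Complex.normSq_apply]
    simp
    ring
  rw [h3]
  congr 1
  simp
  ring

theorem LCK_log {D : ℝ} (h1 : 3 / 4 ≤ D) (h2 : D ≤ 13 / 10) : |-(2 * Real.log D)| ≤ 3 / 5 := by
  have hD : 0 < D := by linarith
  have h3 : Real.log D ≤ 3 / 10 := by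
    have := Real.log_le_sub_one_of_pos hD
    linarith
  have h4 : -(3 / 10) ≤ Real.log D := by
    rw [Real.le_log_iff_exp_le hD, Real.exp_neg]
    have h5 := Real.quadratic_le_exp_of_nonneg (show (0 : ℝ) ≤ 3 / 10 by norm_num)
    have h6 : (4 / 3 : ℝ) ≤ Real.exp (3 / 10) := le_trans (by norm_num) h5
    have h7 : (Real.exp (3 / 10))⁻¹ ≤ (4 / 3 : ℝ)⁻¹ := inv_anti₀ (by norm_num) h6
    refine h7.trans (le_trans (by norm_num) h1)
  rw [abs_neg, abs_mul, abs_two]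
  have := abs_le.2 ⟨h4, h3⟩
  linarith

/-- the decomposition of a matrix with a positive lower right entry -/
theorem LCK_dec (k : SL(2, ℝ)) (hd : 0 < k.1 1 1) :
    k = nM (k.1 0 1 / k.1 1 1) * aM (-(2 * Real.log (k.1 1 1))) * lM (k.1 1 0 / k.1 1 1) := by
  have hdet := LCK_det k
  obtain ⟨d, hdd⟩ : ∃ d, d = k.1 1 1 := ⟨_, rfl⟩
  obtain ⟨q, hq⟩ : ∃ q, q = k.1 0 1 := ⟨_, rfl⟩
  obtain ⟨c, hc⟩ : ∃ c, c = k.1 1 0 := ⟨_, rfl⟩
  obtain ⟨p, hp⟩ : ∃ p, p = k.1 0 0 := ⟨_, rfl⟩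
  rw [← hdd, ← hq, ← hc, ← hp] at hdet
  rw [← hdd] at hd
  rw [← hdd, ← hq, ← hc]
  have e1 : Real.exp (-(2 * Real.log d) / 2) = d⁻¹ := by
    rw [show -(2 * Real.log d) / 2 = -Real.log d by ring, Real.exp_neg, Real.exp_log hd]
  have e2 : Real.exp (-(-(2 * Real.log d) / 2)) = d := by
    rw [show -(-(2 * Real.log d) / 2) = Real.log d by ring, Real.exp_log hd]
  obtain ⟨m00, m01, m10, m11⟩ := LCK_mul (nM (q / d)) (aM (-(2 * Real.log d)))
  obtain ⟨r00, r01, r10, r11⟩ := LCK_mul (nM (q / d) * aM (-(2 * Real.log d))) (lM (c / d))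
  have a00 : (aM (-(2 * Real.log d))).1 0 0 = d⁻¹ := by
    rw [← e1]; simp [aM]
  have a01 : (aM (-(2 * Real.log d))).1 0 1 = 0 := by simp [aM]
  have a10 : (aM (-(2 * Real.log d))).1 1 0 = 0 := by simp [aM]
  have a11 : (aM (-(2 * Real.log d))).1 1 1 = d := by
    have h : (aM (-(2 * Real.log d))).1 1 1 = Real.exp (-(-(2 * Real.log d) / 2)) := by simp [aM]
    rw [h, e2]
  have n00 : (nM (q / d)).1 0 0 = 1 := by simp [nM]
  have n01 : (nM (q / d)).1 0 1 = q / d := by simp [nM]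
  have n10 : (nM (q / d)).1 1 0 = 0 := by simp [nM]
  have n11 : (nM (q / d)).1 1 1 = 1 := by simp [nM]
  have l00 : (lM (c / d)).1 0 0 = 1 := by simp [lM]
  have l01 : (lM (c / d)).1 0 1 = 0 := by simp [lM]
  have l10 : (lM (c / d)).1 1 0 = c / d := by simp [lM]
  have l11 : (lM (c / d)).1 1 1 = 1 := by simp [lM]
  rw [n00, n01, a00, a10] at m00
  rw [n00, n01, a01, a11] at m01
  rw [n10, n11, a00, a10] at m10
  rw [n10, n11, a01, a11] at m11
  rw [m00, m01, l00, l10] at r00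
  rw [m00, m01, l01, l11] at r01
  rw [m10, m11, l00, l10] at r10
  rw [m10, m11, l01, l11] at r11
  have hd0 : d ≠ 0 := hd.ne'
  apply Subtype.ext
  ext i j
  fin_cases i <;> fin_cases j
  · show k.1 0 0 = _
    refine Eq.trans ?_ r00.symm
    rw [← hp]
    field_simp
    linear_combination hdet
  · show k.1 0 1 = _
    refine Eq.trans ?_ r01.symm
    rw [← hq]
    field_simp
    ring
  · show k.1 1 0 = _
    refine Eq.trans ?_ r10.symm
    rw [← hc]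
    field_simp
    ring
  · show k.1 1 1 = _
    refine Eq.trans ?_ r11.symm
    rw [← hdd]
    ring

theorem LCK_proof : LCK_stmt := by
  intro ε ξ k w hε hε1 hc hu hη1 hre him
  have hdet := LCK_det k
  have hN : 0 < (k.1 1 0 * w.re + k.1 1 1) ^ 2 + (k.1 1 0 * w.im) ^ 2 := by
    have hw := w.im_pos
    rcases eq_or_ne (k.1 1 0) 0 with h | h
    · rw [h] at hdet ⊢
      have h1 : k.1 1 1 ≠ 0 := by
        intro h2
        rw [h2] at hdet
        norm_num at hdet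
      have := pow_pos (abs_pos.2 h1) 2
      rw [sq_abs] at this
      nlinarith
    · have h1 : 0 < (k.1 1 0 * w.im) ^ 2 := by
        have h2 := mul_ne_zero h hw.ne'
        have := pow_pos (abs_pos.2 h2) 2
        rwa [sq_abs] at this
      have := sq_nonneg (k.1 1 0 * w.re + k.1 1 1)
      linarith
  rw [LCK_im_smul k w] at him
  obtain ⟨hd1, hd2, hz⟩ := LCK_bd ε 1 (k • w).re (k.1 0 0) (k.1 0 1) (k.1 1 0) (k.1 1 1) w.re w.im hε hε1 one_pos le_rfl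
    (by linarith) (by rw [mul_one]; exact hc) (by rw [mul_one]; exact hu) w.im_pos hη1 hN him (by
      rw [LCK_re_smul k w, sub_self, abs_zero]; positivity)
  rw [mul_one] at hz
  have hx : |k.1 0 1 / k.1 1 1 - ξ| ≤ 4 * ε := by
    have h1 : k.1 0 1 / k.1 1 1 - ξ = ((k • w).re - ξ) - ((k • w).re - k.1 0 1 / k.1 1 1) := by ring
    rw [h1]
    refine (abs_sub _ _).trans ?_
    linarith
  have hdpos : 0 < |k.1 1 1| := by linarith
  have ho : |k.1 1 0 / k.1 1 1| ≤ 2 * |k.1 1 0| := by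
    rw [abs_div, div_le_iff₀ hdpos]
    nlinarith [abs_nonneg (k.1 1 0)]
  rcases lt_or_ge (k.1 1 1) 0 with hneg | hpos
  · have hnk : ∀ i j, (-k).1 i j = -(k.1 i j) := by
      intro i j
      simp
    have h1 : 0 < (-k).1 1 1 := by rw [hnk]; linarith
    have h2 := LCK_dec (-k) h1
    rw [hnk, hnk, hnk, neg_div_neg_eq, neg_div_neg_eq] at h2
    rw [abs_of_neg hneg] at hd1 hd2
    refine ⟨k.1 0 1 / k.1 1 1 - ξ, -(2 * Real.log (-(k.1 1 1))), k.1 1 0 / k.1 1 1, -1, Or.inr rfl, hx, LCK_log hd1 hd2, ho, ?_⟩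
    rw [show ξ + (k.1 0 1 / k.1 1 1 - ξ) = k.1 0 1 / k.1 1 1 by ring]
    have h3 : k = -(-k) := (neg_neg k).symm
    rw [mul_assoc, mul_assoc, neg_mul, one_mul, ← mul_assoc, ← h2, neg_neg]
  · have hpos' : 0 < k.1 1 1 := by
      rcases hpos.lt_or_eq with h | h
      · exact h
      · rw [← h, abs_zero] at hd1
        linarith
    have h2 := LCK_dec k hpos'
    rw [abs_of_pos hpos'] at hd1 hd2
    refine ⟨k.1 0 1 / k.1 1 1 - ξ, -(2 * Real.log (k.1 1 1)), k.1 1 0 / k.1 1 1, 1, Or.inl rfl, hx, LCK_log hd1 hd2, ho, ?_⟩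
    rw [show ξ + (k.1 0 1 / k.1 1 1 - ξ) = k.1 0 1 / k.1 1 1 by ring, one_mul]
    exact h2

end

end Pool.Agent.IR
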